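import Pool.Agent.Helper71.PR.Goals

/-!
# Small perturbations of diagonal matrices with large gaps (packet PR-EIG)
-/

set_option autoImplicit false

namespace Pool.Agent.Helper33.PR

open Matrix Filter Topology Pool.Agent.Helper71.PR

/-- the linear bound -/
theorem lin_bound {n : ℕ} (η : Mt n) (κ : ℝ) (hη : ∀ i b, |η i b| ≤ κ) (w : Fin n → ℝ) (d : ℝ)
    (hw : ∀ b, |w b| ≤ d) (i : Fin n) : |∑ b, η i b * w b| ≤ (n * κ) * d := by
  calc |∑ b, η i b * w b| ≤ ∑ b, |η i b * w b| := Finset.abs_sum_le_sum_abs _ _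
    _ ≤ ∑ _b : Fin n, κ * d := by
        refine Finset.sum_le_sum fun b _ => ?_
        rw [abs_mul]
        exact mul_le_mul (hη i b) (hw b) (abs_nonneg _) ((abs_nonneg _).trans (hη i b))
    _ = (n * κ) * d := by
        rw [Finset.sum_const, Finset.card_univ, Fintype.card_fin, nsmul_eq_mul]
        ring

/-- The fixed point for one column. -/
theorem column {n : ℕ} (η : Mt n) (κ : ℝ) (hη : ∀ i b, |η i b| ≤ κ) (hs0 : 0 ≤ n * κ)
    (hs : n * κ ≤ 1 / 100) (j : Fin n) (q : Fin n → ℝ)
    (hq : ∀ i, i ≠ j → |q i| ≤ 1 / 100 ∨ 100 ≤ |q i|) :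
    ∃ w : Fin n → ℝ, w j = 1 ∧ (∀ i, |w i| ≤ 1) ∧ ∀ i, i ≠ j →
      w i * (q i * (1 + ∑ b, η j b * w b) - 1) = ∑ b, η i b * w b ∧
        |w i * q i| ≤ 2 * (n * κ) := by
  classical
  set s : ℝ := n * κ with hsdef
  let L : (Fin n → ℝ) → Fin n → ℝ := fun w i => ∑ b, η i b * w b
  let N : (Fin n → ℝ) → Fin n → ℝ := fun w i => q i * (1 + L w j) - 1
  let M : Fin n → ℝ := fun i => max 1 |q i|
  have hM1 : ∀ i, 1 ≤ M i := fun i => le_max_left _ _
  have hMq : ∀ i, |q i| ≤ M i := fun i => le_max_right _ _
  let B : Set (Fin n → ℝ) := {w | w j = 1 ∧ ∀ i, |w i| ≤ 1}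
  have hL : ∀ w ∈ B, ∀ i, |L w i| ≤ s := fun w hw i => by
    have := lin_bound η κ hη w 1 hw.2 i
    rwa [mul_one] at this
  have hN : ∀ w ∈ B, ∀ i, i ≠ j → M i / 2 ≤ |N w i| := by
    intro w hw i hi
    have h1 := hL w hw j
    have h2 : |1 + L w j| ≤ 1 + s := by
      calc |1 + L w j| ≤ |(1 : ℝ)| + |L w j| := abs_add_le _ _
        _ ≤ 1 + s := by rw [abs_one]; linarith
    have h3 : 1 - s ≤ |1 + L w j| := by
      have : (1 : ℝ) = (1 + L w j) - L w j := by ring
      have h4 : |(1 : ℝ)| ≤ |1 + L w j| + |L w j| := by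
        calc |(1 : ℝ)| = |(1 + L w j) - L w j| := by rw [← this]
          _ ≤ |1 + L w j| + |L w j| := abs_sub _ _
      rw [abs_one] at h4
      linarith
    have h5 : |q i * (1 + L w j)| = |q i| * |1 + L w j| := abs_mul _ _
    rcases hq i hi with h | h
    · have hMi : M i = 1 := max_eq_left (by linarith)
      rw [hMi]
      have h6 : |q i * (1 + L w j)| ≤ 1 / 100 * (1 + s) := by
        rw [h5]
        exact mul_le_mul h h2 (abs_nonneg _) (by norm_num)
      have h7 : |(1 : ℝ)| ≤ |N w i| + |q i * (1 + L w j)| := by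
        have : (1 : ℝ) = -(N w i) + q i * (1 + L w j) := by
          show (1 : ℝ) = -(q i * (1 + L w j) - 1) + q i * (1 + L w j)
          ring
        calc |(1 : ℝ)| = |-(N w i) + q i * (1 + L w j)| := by rw [← this]
          _ ≤ |-(N w i)| + |q i * (1 + L w j)| := abs_add_le _ _
          _ = |N w i| + |q i * (1 + L w j)| := by rw [abs_neg]
      rw [abs_one] at h7
      linarith
    · have hMi : M i = |q i| := max_eq_right (by linarith)
      rw [hMi]
      have h6 : |q i| * (1 - s) ≤ |q i * (1 + L w j)| := by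
        rw [h5]
        exact mul_le_mul_of_nonneg_left h3 (abs_nonneg _)
      have h7 : |q i * (1 + L w j)| ≤ |N w i| + 1 := by
        have : q i * (1 + L w j) = N w i + 1 := by
          show q i * (1 + L w j) = (q i * (1 + L w j) - 1) + 1
          ring
        calc |q i * (1 + L w j)| = |N w i + 1| := by rw [this]
          _ ≤ |N w i| + |(1 : ℝ)| := abs_add_le _ _
          _ = |N w i| + 1 := by rw [abs_one]
      nlinarith
  let Φ : (Fin n → ℝ) → Fin n → ℝ := fun w i => if i = j then 1 else L w i / N w i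
  have hΦB : Set.MapsTo Φ B B := by
    intro w hw
    refine ⟨if_pos rfl, fun i => ?_⟩
    by_cases hi : i = j
    · show |if i = j then (1 : ℝ) else L w i / N w i| ≤ 1
      rw [if_pos hi, abs_one]
    · show |if i = j then (1 : ℝ) else L w i / N w i| ≤ 1
      rw [if_neg hi, abs_div]
      have h1 := hL w hw i
      have h2 := hN w hw i hi
      have h3 := hM1 i
      rw [div_le_one (by linarith)]
      linarith
  have hclosed : IsClosed B := by
    have : B = {w : Fin n → ℝ | w j = 1} ∩ ⋂ i, {w : Fin n → ℝ | |w i| ≤ 1} := by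
      ext w
      simp [B]
    rw [this]
    refine (isClosed_eq (continuous_apply j) continuous_const).inter (isClosed_iInter fun i => ?_)
    exact isClosed_le (continuous_apply i).abs continuous_const
  have hlip : ContractingWith (1 / 2) (hΦB.restrict Φ B B) := by
    refine ⟨by rw [← NNReal.coe_lt_coe]; norm_num, LipschitzWith.of_dist_le_mul ?_⟩
    rintro ⟨w, hw⟩ ⟨w', hw'⟩
    rw [Subtype.dist_eq, Subtype.dist_eq]
    show dist (Φ w) (Φ w') ≤ ((1 / 2 : NNReal) : ℝ) * dist w w'
    have hd0 : 0 ≤ dist w w' := dist_nonneg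
    have hhalf : ((1 / 2 : NNReal) : ℝ) = 1 / 2 := by norm_num
    rw [hhalf]
    refine (dist_pi_le_iff (by positivity)).2 fun i => ?_
    rw [Real.dist_eq]
    by_cases hi : i = j
    · show |(if i = j then (1 : ℝ) else L w i / N w i) - (if i = j then (1 : ℝ) else L w' i / N w' i)| ≤ _
      rw [if_pos hi, if_pos hi, sub_self, abs_zero]
      positivity
    · show |(if i = j then (1 : ℝ) else L w i / N w i) - (if i = j then (1 : ℝ) else L w' i / N w' i)| ≤ _
      rw [if_neg hi, if_neg hi]
      have hdiff : ∀ a, |L w a - L w' a| ≤ s * dist w w' := by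
        intro a
        have e : L w a - L w' a = ∑ b, η a b * (w b - w' b) := by
          show ∑ b, η a b * w b - ∑ b, η a b * w' b = _
          rw [← Finset.sum_sub_distrib]
          exact Finset.sum_congr rfl fun b _ => by ring
        rw [e]
        exact lin_bound η κ hη (fun b => w b - w' b) (dist w w')
          (fun b => by rw [← Real.dist_eq]; exact dist_le_pi_dist w w' b) a
      have h1 := hN w hw i hi
      have h1' := hN w' hw' i hi
      have hM := hM1 i
      have hqM := hMq i
      have hN0 : N w i ≠ 0 := by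
        intro h
        rw [h, abs_zero] at h1
        linarith
      have hN0' : N w' i ≠ 0 := by
        intro h
        rw [h, abs_zero] at h1'
        linarith
      have hNd : |N w' i - N w i| ≤ M i * (s * dist w w') := by
        have e : N w' i - N w i = q i * (L w' j - L w j) := by
          show (q i * (1 + L w' j) - 1) - (q i * (1 + L w j) - 1) = _
          ring
        rw [e, abs_mul]
        refine mul_le_mul hqM ?_ (abs_nonneg _) (by linarith)
        rw [abs_sub_comm]
        exact hdiff j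
      have e : L w i / N w i - L w' i / N w' i =
          (L w i - L w' i) / N w i + L w' i * (N w' i - N w i) / (N w i * N w' i) := by
        field_simp
        ring
      rw [e]
      have hpos : 0 < M i := by linarith
      have t1 : |(L w i - L w' i) / N w i| ≤ 2 * (s * dist w w') := by
        rw [abs_div, div_le_iff₀ (by linarith)]
        have := hdiff i
        have h0 : 0 ≤ s * dist w w' := by positivity
        nlinarith
      have t2 : |L w' i * (N w' i - N w i) / (N w i * N w' i)| ≤ 4 * (s * (s * dist w w')) := by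
        rw [abs_div, abs_mul, abs_mul, div_le_iff₀ (by
          have : 0 < |N w i| := by linarith
          have : 0 < |N w' i| := by linarith
          positivity)]
        have a1 : |L w' i| * |N w' i - N w i| ≤ s * (M i * (s * dist w w')) :=
          mul_le_mul (hL w' hw' i) hNd (abs_nonneg _) hs0
        have a2 : M i / 2 * (M i / 2) ≤ |N w i| * |N w' i| :=
          mul_le_mul h1 h1' (by linarith) (abs_nonneg _)
        have h0 : 0 ≤ s * (s * dist w w') := by positivity
        calc |L w' i| * |N w' i - N w i| ≤ s * (M i * (s * dist w w')) := a1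
          _ = (s * (s * dist w w')) * M i := by ring
          _ ≤ (s * (s * dist w w')) * (M i * M i) := by
              refine mul_le_mul_of_nonneg_left ?_ h0
              nlinarith
          _ = 4 * (s * (s * dist w w')) * (M i / 2 * (M i / 2)) := by ring
          _ ≤ 4 * (s * (s * dist w w')) * (|N w i| * |N w' i|) :=
              mul_le_mul_of_nonneg_left a2 (by positivity)
      have h0 : 0 ≤ s * dist w w' := by positivity
      calc |(L w i - L w' i) / N w i + L w' i * (N w' i - N w i) / (N w i * N w' i)|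
          ≤ 2 * (s * dist w w') + 4 * (s * (s * dist w w')) :=
            (abs_add_le _ _).trans (add_le_add t1 t2)
        _ ≤ 1 / 2 * dist w w' := by
            have b1 : s * dist w w' ≤ 1 / 100 * dist w w' := mul_le_mul_of_nonneg_right hs hd0
            have b2 : s * (s * dist w w') ≤ 1 * (s * dist w w') :=
              mul_le_mul_of_nonneg_right (by linarith) h0
            linarith
  obtain ⟨w, hwB, hfix, -⟩ := hlip.exists_fixedPoint' hclosed.isComplete hΦB
    (x := fun _ => (1 : ℝ)) ⟨rfl, fun i => by simp⟩ (edist_ne_top _ _)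
  refine ⟨w, hwB.1, hwB.2, fun i hi => ?_⟩
  have h1 := hN w hwB i hi
  have hM := hM1 i
  have hqM := hMq i
  have hN0 : N w i ≠ 0 := by
    intro h
    rw [h, abs_zero] at h1
    linarith
  have hwi : w i = L w i / N w i := by
    have : Φ w i = w i := congrFun hfix i
    rw [← this]
    show (if i = j then (1 : ℝ) else L w i / N w i) = _
    rw [if_neg hi]
  refine ⟨?_, ?_⟩
  · show w i * N w i = L w i
    rw [hwi]
    have : N (w) i ≠ 0 := hN0
    rw [div_mul_cancel₀]
    exact this
  · rw [hwi, abs_mul, abs_div, div_mul_eq_mul_div, div_le_iff₀ (by linarith)]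
    have a1 : |L w i| * |q i| ≤ s * M i := mul_le_mul (hL w hwB i) hqM (abs_nonneg _) hs0
    nlinarith

/-- **EIG.** -/
theorem eig : G_EIG := by
  intro n ε hε
  have hn0 : (0 : ℝ) ≤ n := Nat.cast_nonneg n
  set e : ℝ := min ε 1 with he
  have he0 : 0 < e := lt_min hε one_pos
  have he1 : e ≤ 1 := min_le_right _ _
  have heε : e ≤ ε := min_le_left _ _
  have hden : (0 : ℝ) < 100 * ((n : ℝ) + 1) ^ 2 := by positivity
  refine ⟨e / (100 * ((n : ℝ) + 1) ^ 2), div_pos he0 hden, 100, fun E Δ hE hΔ hgap => ?_⟩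
  set κ : ℝ := e / (100 * ((n : ℝ) + 1) ^ 2) with hκ
  have hκ0 : 0 < κ := div_pos he0 hden
  have hκe : κ * (100 * ((n : ℝ) + 1) ^ 2) = e := div_mul_cancel₀ _ hden.ne'
  set s : ℝ := n * κ with hs
  have hs0 : 0 ≤ s := by positivity
  have hns : n * s ≤ e / 100 := by
    have : 100 * (n * s) ≤ e := by
      rw [← hκe, hs]
      nlinarith [mul_nonneg hκ0.le hn0]
    linarith
  have hse : s ≤ e / 100 := by
    have : 100 * s ≤ e := by
      rw [← hκe, hs]
      nlinarith [mul_nonneg hκ0.le hn0, mul_nonneg (mul_nonneg hκ0.le hn0) hn0]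
    linarith
  have hs1 : s ≤ 1 / 100 := by linarith
  let η : Mt n := E - 1
  have hη : ∀ i b, |η i b| ≤ κ := fun i b => hE i b
  have hcol : ∀ j : Fin n, ∃ w : Fin n → ℝ, w j = 1 ∧ (∀ i, |w i| ≤ 1) ∧ ∀ i, i ≠ j →
      w i * (Δ j / Δ i * (1 + ∑ b, η j b * w b) - 1) = ∑ b, η i b * w b ∧
        |w i * (Δ j / Δ i)| ≤ 2 * (n * κ) := by
    intro j
    refine column η κ hη hs0 hs1 j (fun i => Δ j / Δ i) fun i hi => ?_
    have hΔi : 0 < |Δ i| := abs_pos.2 (hΔ i)
    rw [abs_div]
    rcases lt_or_gt_of_ne hi with h | h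
    · left
      rw [div_le_iff₀ hΔi]
      have := hgap i j h
      linarith
    · right
      rw [le_div_iff₀ hΔi]
      exact hgap j i h
  choose w hw1 hwb hw using hcol
  let k : Mt n := fun i j => w j i * (Δ j / Δ i)
  let l : Fin n → ℝ := fun j => Δ j * (1 + ∑ b, η j b * w j b)
  have hkd : ∀ j, k j j = 1 := fun j => by
    show w j j * (Δ j / Δ j) = 1
    rw [hw1, div_self (hΔ j), one_mul]
  have hko : ∀ i j, i ≠ j → |k i j| ≤ 2 * s := fun i j hij => (hw j i hij).2
  have hLb : ∀ j, |∑ b, η j b * w j b| ≤ s := fun j => by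
    have := lin_bound η κ hη (w j) 1 (hwb j) j
    rwa [mul_one] at this
  have hl2 : ∀ j, |l j| ≤ 101 / 100 * |Δ j| := fun j => by
    show |Δ j * (1 + ∑ b, η j b * w j b)| ≤ _
    rw [abs_mul, mul_comm]
    refine mul_le_mul_of_nonneg_right ?_ (abs_nonneg _)
    calc |1 + ∑ b, η j b * w j b| ≤ |(1 : ℝ)| + |∑ b, η j b * w j b| := abs_add_le _ _
      _ ≤ 101 / 100 := by rw [abs_one]; have := hLb j; linarith
  have hl1 : ∀ j, 99 / 100 * |Δ j| ≤ |l j| := fun j => by
    show _ ≤ |Δ j * (1 + ∑ b, η j b * w j b)|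
    rw [abs_mul, mul_comm]
    refine mul_le_mul_of_nonneg_left ?_ (abs_nonneg _)
    have h4 : |(1 : ℝ)| ≤ |1 + ∑ b, η j b * w j b| + |∑ b, η j b * w j b| := by
      calc |(1 : ℝ)| = |(1 + ∑ b, η j b * w j b) - ∑ b, η j b * w j b| := by
            rw [add_sub_cancel_right]
        _ ≤ |1 + ∑ b, η j b * w j b| + |∑ b, η j b * w j b| := abs_sub _ _
    rw [abs_one] at h4
    have := hLb j
    linarith
  refine ⟨k, l, ?_, ?_, ?_, ?_, ?_⟩
  · refine det_ne_zero_of_sum_row_lt_diag fun i => ?_
    rw [hkd i, norm_one]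
    calc ∑ j ∈ Finset.univ.erase i, ‖k i j‖ ≤ ∑ _j ∈ Finset.univ.erase i, 2 * s := by
          refine Finset.sum_le_sum fun j hj => ?_
          rw [Real.norm_eq_abs]
          exact hko i j (Finset.ne_of_mem_erase hj).symm
      _ ≤ ∑ _j : Fin n, 2 * s :=
          Finset.sum_le_sum_of_subset_of_nonneg (Finset.erase_subset _ _) fun _ _ _ => by linarith
      _ = 2 * (n * s) := by
          rw [Finset.sum_const, Finset.card_univ, Fintype.card_fin, nsmul_eq_mul]
          ring
      _ < 1 := by linarith
  · intro i j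
    by_cases hij : i = j
    · subst hij
      rw [hkd, Matrix.one_apply_eq, sub_self, abs_zero]
      exact hε.le
    · rw [Matrix.one_apply_ne hij, sub_zero]
      exact (hko i j hij).trans (by linarith)
  · ext i j
    rw [Matrix.mul_apply, Matrix.mul_diagonal]
    have h1 : ∀ b, (E * diagonal Δ) i b * k b j = Δ j * (E i b * w j b) := fun b => by
      rw [Matrix.mul_diagonal]
      show E i b * Δ b * (w j b * (Δ j / Δ b)) = _
      have := hΔ b
      field_simp
    rw [Finset.sum_congr rfl fun b _ => h1 b, ← Finset.mul_sum]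
    have h2 : ∑ b, E i b * w j b = w j i + ∑ b, η i b * w j b := by
      have : ∀ b, E i b * w j b = (1 : Mt n) i b * w j b + η i b * w j b := fun b => by
        show E i b * w j b = (1 : Mt n) i b * w j b + (E i b - (1 : Mt n) i b) * w j b
        ring
      rw [Finset.sum_congr rfl fun b _ => this b, Finset.sum_add_distrib]
      congr 1
      simp [Matrix.one_apply]
    rw [h2]
    by_cases hij : i = j
    · subst hij
      rw [hkd, one_mul, hw1]
    · have h3 := (hw j i hij).1
      show Δ j * (w j i + ∑ b, η i b * w j b) =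
        w j i * (Δ j / Δ i) * (Δ j * (1 + ∑ b, η j b * w j b))
      rw [← h3]
      ring
  · intro i h
    have h1 := hl1 i
    rw [h, abs_zero] at h1
    have h2 : 0 < |Δ i| := abs_pos.2 (hΔ i)
    linarith
  · intro i j hij
    have h1 := hl1 i
    have h2 := hl2 j
    have h3 := hgap i j hij
    have h4 : 0 < |Δ i| := abs_pos.2 (hΔ i)
    linarith

end Pool.Agent.Helper33.PR
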